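import Pool.Agent.Helper35.SV.Stm

/-!
# The mean value inequality for nonnegative superharmonic functions in a disc
-/

set_option autoImplicit false
open MeasureTheory Filter Topology Complex Metric Set
open scoped ContDiff ENNReal

namespace Pool.Agent.Helper26.SV

open Pool.Agent.Q73.NL (dx dy lap)

/-- differentiation under the integral sign, continuous form -/
theorem hasDerivAt_int {F F' : ℝ → ℝ → ℝ} {r a b : ℝ}
    (hd : ∀ s ∈ Ioo (-r) r, ∀ θ, HasDerivAt (fun s => F s θ) (F' s θ) s)
    (hc : ∀ s ∈ Ioo (-r) r, Continuous (F s))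
    (hc' : ContinuousOn (fun p : ℝ × ℝ => F' p.1 p.2) (Ioo (-r) r ×ˢ univ))
    {s₀ : ℝ} (hs₀ : s₀ ∈ Ioo (-r) r) :
    HasDerivAt (fun s => ∫ θ in a..b, F s θ) (∫ θ in a..b, F' s₀ θ) s₀ := by
  obtain ⟨ε, hε, hsub⟩ : ∃ ε > 0, closedBall s₀ ε ⊆ Ioo (-r) r :=
    Metric.nhds_basis_closedBall.mem_iff.1 (Ioo_mem_nhds hs₀.1 hs₀.2)
  have hK : IsCompact (closedBall s₀ ε ×ˢ uIcc a b) :=
    (isCompact_closedBall s₀ ε).prod isCompact_uIcc
  have hcK : ContinuousOn (fun p : ℝ × ℝ => F' p.1 p.2) (closedBall s₀ ε ×ˢ uIcc a b) :=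
    hc'.mono (prod_mono hsub (subset_univ _))
  obtain ⟨M, hM⟩ := hK.exists_bound_of_continuousOn hcK
  have hcs : Continuous (F' s₀) := by
    have h1 : ContinuousOn (fun θ : ℝ => F' s₀ θ) univ :=
      hc'.comp (f := fun θ : ℝ => (s₀, θ)) (by fun_prop) (fun θ _ => ⟨hs₀, mem_univ _⟩)
    exact continuousOn_univ.1 h1
  refine (intervalIntegral.hasDerivAt_integral_of_dominated_loc_of_deriv_le
    (F := F) (F' := F') (bound := fun _ => M) (closedBall_mem_nhds s₀ hε) ?_ ?_ ?_ ?_ ?_ ?_).2
  · filter_upwards [Ioo_mem_nhds hs₀.1 hs₀.2] with s hs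
    exact (hc s hs).aestronglyMeasurable
  · exact (hc s₀ hs₀).intervalIntegrable _ _
  · exact hcs.aestronglyMeasurable
  · refine Eventually.of_forall fun θ hθ s hs => hM (s, θ) ⟨hs, uIoc_subset_uIcc hθ⟩
  · exact intervalIntegrable_const
  · exact Eventually.of_forall fun θ _ s hs => hd s (hsub hs) θ

/-- the unit vector -/
noncomputable def un (θ : ℝ) : ℂ := cexp (θ * I)

theorem un_deriv (θ : ℝ) : HasDerivAt un (I * un θ) θ := by
  unfold un
  have h1 : HasDerivAt (fun θ : ℝ => (θ : ℂ) * I) (1 * I) θ :=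
    (Complex.ofRealCLM.hasDerivAt (x := θ)).mul_const I
  have h2 := h1.cexp
  convert h2 using 1
  ring

theorem un_cont : Continuous un := by
  unfold un; fun_prop

theorem norm_un (θ : ℝ) : ‖un θ‖ = 1 := by
  unfold un; exact Complex.norm_exp_ofReal_mul_I θ

theorem un_eq (θ : ℝ) : un θ = (Real.cos θ) • (1 : ℂ) + (Real.sin θ) • I := by
  unfold un
  rw [Complex.exp_mul_I]
  simp

theorem iun_eq (θ : ℝ) : I * un θ = (-Real.sin θ) • (1 : ℂ) + (Real.cos θ) • I := by
  rw [un_eq]
  apply Complex.ext <;> simp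

theorem mem_bl {y : ℂ} {r s : ℝ} (hs : s ∈ Ioo (-r) r) (θ : ℝ) : y + s • un θ ∈ ball y r := by
  rw [mem_ball, dist_eq_norm, add_sub_cancel_left, norm_smul, norm_un, mul_one, Real.norm_eq_abs]
  exact abs_lt.2 hs

/-- the trace of a bilinear form in a rotated basis -/
theorem tr_rot (B : ℂ →L[ℝ] (ℂ →L[ℝ] ℝ)) (θ : ℝ) :
    B (un θ) (un θ) + B (I * un θ) (I * un θ) = B 1 1 + B I I := by
  rw [iun_eq, un_eq]
  simp only [map_add, map_smul, add_apply, smul_apply,
    smul_eq_mul]
  have h := Real.sin_sq_add_cos_sq θ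
  linear_combination (B 1 1 + B I I) * h

theorem lap_eq {g : ℂ → ℝ} {z : ℂ} (h : ContDiffAt ℝ 2 g z) :
    lap g z = fderiv ℝ (fderiv ℝ g) z 1 1 + fderiv ℝ (fderiv ℝ g) z I I := by
  have h1 : DifferentiableAt ℝ (fderiv ℝ g) z :=
    (h.fderiv_right (m := 1) (by norm_num)).differentiableAt (by norm_num)
  unfold lap
  have h2 : ∀ v : ℂ, fderiv ℝ (fun w => fderiv ℝ g w v) z = (fderiv ℝ (fderiv ℝ g) z).flip v := by
    intro v
    have h3 := h1.hasFDerivAt.clm_apply (hasFDerivAt_const v z)
    rw [h3.fderiv]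
    ext w
    simp
  have h4 : dx (dx g) z = fderiv ℝ (fun w => fderiv ℝ g w 1) z 1 := rfl
  have h5 : dy (dy g) z = fderiv ℝ (fun w => fderiv ℝ g w I) z I := rfl
  rw [h4, h5, h2, h2]
  simp

variable {g : ℂ → ℝ} {y : ℂ} {r : ℝ}

theorem circ_le (hr : 0 < r) (hg : ∀ z ∈ ball y r, ContDiffAt ℝ 2 g z)
    (hl : ∀ z ∈ ball y r, lap g z ≤ 0) {s : ℝ} (hs : s ∈ Ico 0 r) :
    ∫ θ in (-Real.pi)..Real.pi, g (y + s • un θ) ≤ 2 * Real.pi * g y := by
  set D := fderiv ℝ g with hD
  set DD := fderiv ℝ D with hDD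
  have hg1 : ∀ z ∈ ball y r, HasFDerivAt g (D z) z := fun z hz =>
    ((hg z hz).differentiableAt (by norm_num)).hasFDerivAt
  have hgD : ∀ z ∈ ball y r, ContDiffAt ℝ 1 D z := fun z hz =>
    (hg z hz).fderiv_right (by norm_num)
  have hg2 : ∀ z ∈ ball y r, HasFDerivAt D (DD z) z := fun z hz =>
    ((hgD z hz).differentiableAt (by norm_num)).hasFDerivAt
  have hcg : ContinuousOn g (ball y r) := fun z hz => (hg z hz).continuousAt.continuousWithinAt
  have hcD : ContinuousOn D (ball y r) := fun z hz => (hgD z hz).continuousAt.continuousWithinAt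
  have hcDD : ContinuousOn DD (ball y r) := fun z hz =>
    ((hgD z hz).fderiv_right (m := 0) (by norm_num)).continuousAt.continuousWithinAt
  -- the path
  have hpc : Continuous (fun p : ℝ × ℝ => y + p.1 • un p.2) := by
    have := un_cont
    fun_prop
  have hpm : MapsTo (fun p : ℝ × ℝ => y + p.1 • un p.2) (Ioo (-r) r ×ˢ univ) (ball y r) :=
    fun p hp => mem_bl hp.1 p.2
  have hps : ∀ s θ : ℝ, HasDerivAt (fun s : ℝ => y + s • un θ) (un θ) s := by
    intro s θ
    have h1 := ((hasDerivAt_id s).smul_const (un θ)).const_add y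
    simpa using h1
  have hpt : ∀ s θ : ℝ, HasDerivAt (fun θ : ℝ => y + s • un θ) (s • (I * un θ)) θ := by
    intro s θ
    exact ((un_deriv θ).const_smul s).const_add y
  have hun2 : Continuous (fun p : ℝ × ℝ => un p.2) := un_cont.comp continuous_snd
  -- first derivative
  have hA : ∀ s ∈ Ioo (-r) r, HasDerivAt (fun s => ∫ θ in (-Real.pi)..Real.pi, g (y + s • un θ))
      (∫ θ in (-Real.pi)..Real.pi, D (y + s • un θ) (un θ)) s := by
    intro s hs
    refine hasDerivAt_int (F := fun s θ => g (y + s • un θ))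
      (F' := fun s θ => D (y + s • un θ) (un θ)) (r := r) ?_ ?_ ?_ hs
    · intro s hs θ
      exact (hg1 _ (mem_bl hs θ)).comp_hasDerivAt s (hps s θ)
    · intro s hs
      have h1 : Continuous (fun θ : ℝ => y + s • un θ) := by
        have := un_cont
        fun_prop
      exact continuousOn_univ.1 (hcg.comp h1.continuousOn (fun θ _ => mem_bl hs θ))
    · exact (hcD.comp hpc.continuousOn hpm).clm_apply hun2.continuousOn
  -- second derivative
  have hC : ∀ s ∈ Ioo (-r) r,
      HasDerivAt (fun s => ∫ θ in (-Real.pi)..Real.pi, s * D (y + s • un θ) (un θ))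
      (∫ θ in (-Real.pi)..Real.pi, (D (y + s • un θ) (un θ) +
        s * DD (y + s • un θ) (un θ) (un θ))) s := by
    intro s hs
    refine hasDerivAt_int (F := fun s θ => s * D (y + s • un θ) (un θ))
      (F' := fun s θ => D (y + s • un θ) (un θ) +
        s * DD (y + s • un θ) (un θ) (un θ)) (r := r) ?_ ?_ ?_ hs
    · intro s hs θ
      have h1 : HasDerivAt (fun s : ℝ => D (y + s • un θ)) (DD (y + s • un θ) (un θ)) s :=
        (hg2 _ (mem_bl hs θ)).comp_hasDerivAt s (hps s θ)
      have h2 : HasDerivAt (fun s : ℝ => D (y + s • un θ) (un θ))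
          (DD (y + s • un θ) (un θ) (un θ)) s := by
        simpa using h1.clm_apply (hasDerivAt_const s (un θ))
      have h3 := (hasDerivAt_id' s).fun_mul h2
      simpa using h3
    · intro s hs
      have h1 : Continuous (fun θ : ℝ => y + s • un θ) := by
        have := un_cont
        fun_prop
      have h2 : Continuous (fun θ : ℝ => D (y + s • un θ)) :=
        continuousOn_univ.1 (hcD.comp h1.continuousOn (fun θ _ => mem_bl hs θ))
      exact continuous_const.mul (h2.clm_apply un_cont)
    · refine ((hcD.comp hpc.continuousOn hpm).clm_apply hun2.continuousOn).add ?_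
      exact continuous_fst.continuousOn.mul
        (((hcDD.comp hpc.continuousOn hpm).clm_apply hun2.continuousOn).clm_apply
          hun2.continuousOn)
  -- the integral of a derivative over the circle
  have hH : ∀ s ∈ Ioo (-r) r, ∫ θ in (-Real.pi)..Real.pi,
      (s * DD (y + s • un θ) (I * un θ) (I * un θ) - D (y + s • un θ) (un θ)) = 0 := by
    intro s hs
    have h1 : Continuous (fun θ : ℝ => y + s • un θ) := by
      have := un_cont
      fun_prop
    have hiu : Continuous (fun θ : ℝ => I * un θ) := continuous_const.mul un_cont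
    have hm : MapsTo (fun θ : ℝ => y + s • un θ) univ (ball y r) := fun θ _ => mem_bl hs θ
    have h2 : Continuous (fun θ : ℝ => D (y + s • un θ)) :=
      continuousOn_univ.1 (hcD.comp h1.continuousOn hm)
    have h3 : Continuous (fun θ : ℝ => DD (y + s • un θ)) :=
      continuousOn_univ.1 (hcDD.comp h1.continuousOn hm)
    have hc : Continuous (fun θ : ℝ => s * DD (y + s • un θ) (I * un θ) (I * un θ) -
        D (y + s • un θ) (un θ)) :=
      (continuous_const.mul ((h3.clm_apply hiu).clm_apply hiu)).sub (h2.clm_apply un_cont)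
    have h4 := intervalIntegral.integral_eq_sub_of_hasDerivAt
      (f := fun θ : ℝ => D (y + s • un θ) (I * un θ))
      (f' := fun θ : ℝ => s * DD (y + s • un θ) (I * un θ) (I * un θ) -
        D (y + s • un θ) (un θ)) (a := -Real.pi) (b := Real.pi) ?_ (hc.intervalIntegrable _ _)
    · rw [h4]
      have h5 : un (-Real.pi) = un Real.pi := by
        rw [un_eq, un_eq]
        simp
      simp [h5]
    · intro θ _
      have h5 : HasDerivAt (fun θ : ℝ => D (y + s • un θ)) (DD (y + s • un θ) (s • (I * un θ))) θ :=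
        (hg2 _ (mem_bl hs θ)).comp_hasDerivAt θ (hpt s θ)
      have h6 : HasDerivAt (fun θ : ℝ => I * un θ) (-un θ) θ := by
        have h7 := (un_deriv θ).const_mul I
        have h8 : I * (I * un θ) = -un θ := by
          rw [← mul_assoc, Complex.I_mul_I]; ring
        rwa [h8] at h7
      have h9 := h5.clm_apply h6
      convert h9 using 1
      simp only [map_smul, smul_apply, smul_eq_mul, map_neg]
      ring
  -- the derivative of `s A'(s)` is nonpositive
  have hC' : ∀ s ∈ Ico 0 r, ∫ θ in (-Real.pi)..Real.pi, (D (y + s • un θ) (un θ) +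
        s * DD (y + s • un θ) (un θ) (un θ)) ≤ 0 := by
    intro s hs
    have hs' : s ∈ Ioo (-r) r := ⟨by linarith [hs.1], hs.2⟩
    have h1 : Continuous (fun θ : ℝ => y + s • un θ) := by
      have := un_cont
      fun_prop
    have hiu : Continuous (fun θ : ℝ => I * un θ) := continuous_const.mul un_cont
    have hm : MapsTo (fun θ : ℝ => y + s • un θ) univ (ball y r) := fun θ _ => mem_bl hs' θ
    have h2 : Continuous (fun θ : ℝ => D (y + s • un θ)) :=
      continuousOn_univ.1 (hcD.comp h1.continuousOn hm)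
    have h3 : Continuous (fun θ : ℝ => DD (y + s • un θ)) :=
      continuousOn_univ.1 (hcDD.comp h1.continuousOn hm)
    have h4 := hH s hs'
    have h5 : ∫ θ in (-Real.pi)..Real.pi, (D (y + s • un θ) (un θ) +
        s * DD (y + s • un θ) (un θ) (un θ)) = ∫ θ in (-Real.pi)..Real.pi,
          s * lap g (y + s • un θ) := by
      rw [← add_zero (∫ θ in (-Real.pi)..Real.pi, (D (y + s • un θ) (un θ) +
        s * DD (y + s • un θ) (un θ) (un θ))), ← h4, ← intervalIntegral.integral_add]
      · congr 1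
        ext θ
        rw [lap_eq (hg _ (mem_bl hs' θ)), ← tr_rot _ θ]
        ring
      · exact ((h2.clm_apply un_cont).add (continuous_const.mul
          ((h3.clm_apply un_cont).clm_apply un_cont))).intervalIntegrable _ _
      · exact ((continuous_const.mul ((h3.clm_apply hiu).clm_apply hiu)).sub
          (h2.clm_apply un_cont)).intervalIntegrable _ _
    rw [h5]
    have h6 : ∀ θ : ℝ, s * lap g (y + s • un θ) ≤ 0 := fun θ =>
      mul_nonpos_of_nonneg_of_nonpos hs.1 (hl _ (mem_bl hs' θ))
    have h7 : 0 ≤ ∫ θ in (-Real.pi)..Real.pi, -(s * lap g (y + s • un θ)) := by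
      apply intervalIntegral.integral_nonneg (by linarith [Real.pi_pos])
      intro θ _
      linarith [h6 θ]
    rw [intervalIntegral.integral_neg] at h7
    linarith
  -- `s A'(s) ≤ 0`
  have hCle : ∀ s ∈ Ico 0 r, ∫ θ in (-Real.pi)..Real.pi, s * D (y + s • un θ) (un θ) ≤ 0 := by
    have hanti : AntitoneOn (fun s => ∫ θ in (-Real.pi)..Real.pi, s * D (y + s • un θ) (un θ))
        (Ico 0 r) := by
      apply antitoneOn_of_deriv_nonpos (convex_Ico 0 r)
      · intro s hs
        exact (hC s ⟨by linarith [hs.1], hs.2⟩).continuousAt.continuousWithinAt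
      · intro s hs
        rw [interior_Ico] at hs
        exact (hC s ⟨by linarith [hs.1], hs.2⟩).differentiableAt.differentiableWithinAt
      · intro s hs
        rw [interior_Ico] at hs
        rw [(hC s ⟨by linarith [hs.1], hs.2⟩).deriv]
        exact hC' s ⟨hs.1.le, hs.2⟩
    intro s hs
    have h1 := hanti ⟨le_rfl, hr⟩ hs hs.1
    simpa using h1
  have hAanti : AntitoneOn (fun s => ∫ θ in (-Real.pi)..Real.pi, g (y + s • un θ)) (Ico 0 r) := by
    apply antitoneOn_of_deriv_nonpos (convex_Ico 0 r)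
    · intro s hs
      exact (hA s ⟨by linarith [hs.1], hs.2⟩).continuousAt.continuousWithinAt
    · intro s hs
      rw [interior_Ico] at hs
      exact (hA s ⟨by linarith [hs.1], hs.2⟩).differentiableAt.differentiableWithinAt
    · intro s hs
      rw [interior_Ico] at hs
      rw [(hA s ⟨by linarith [hs.1], hs.2⟩).deriv]
      have h1 := hCle s ⟨hs.1.le, hs.2⟩
      rw [intervalIntegral.integral_const_mul] at h1
      exact nonpos_of_mul_nonpos_right h1 hs.1
  have h1 := hAanti ⟨le_rfl, hr⟩ hs hs.1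
  have h2 : ∫ θ in (-Real.pi)..Real.pi, g (y + (0 : ℝ) • un θ) = 2 * Real.pi * g y := by
    simp only [zero_smul, add_zero, intervalIntegral.integral_const, smul_eq_mul]
    ring
  simp only [h2] at h1
  exact h1

theorem lint_eq {h : ℝ → ℝ} {a b : ℝ} (hab : a ≤ b) (hc : Continuous h)
    (hn : ∀ t ∈ Ioo a b, 0 ≤ h t) :
    ∫⁻ t in Ioo a b, ENNReal.ofReal (h t) = ENNReal.ofReal (∫ t in a..b, h t) := by
  rw [intervalIntegral.integral_of_le hab, integral_Ioc_eq_integral_Ioo,
    ofReal_integral_eq_lintegral_ofReal]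
  · exact (hc.integrableOn_Icc (a := a) (b := b)).mono_set Ioo_subset_Icc_self
  · exact (ae_restrict_iff' measurableSet_Ioo).2 (Eventually.of_forall hn)

/-- (MV) proved -/
theorem mv : Pool.Agent.Helper35.SV.S_MV := by
  intro g y r hr hg hnn hl
  have hcg : ContinuousOn g (ball y r) := fun z hz => (hg z hz).continuousAt.continuousWithinAt
  set f : ℂ → ℝ≥0∞ := fun z => (ball (0 : ℂ) r).indicator (fun z => ENNReal.ofReal (g (y + z))) z
    with hf
  have hcg0 : ContinuousOn (fun z => g (y + z)) (ball (0 : ℂ) r) := by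
    refine hcg.comp (by fun_prop) ?_
    intro z hz
    rw [mem_ball_zero_iff] at hz
    rw [mem_ball, dist_eq_norm, add_sub_cancel_left]
    exact hz
  have h1 : ∫⁻ z in ball y r, ENNReal.ofReal (g z) = ∫⁻ z, f z := by
    rw [← lintegral_indicator measurableSet_ball, ← lintegral_add_left_eq_self _ y]
    congr 1
    ext z
    simp only [hf, indicator, mem_ball, dist_eq_norm, add_sub_cancel_left, sub_zero]
  have hfm : Measurable f := by
    classical
    have h2 : Measurable ((ball (0 : ℂ) r).piecewise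
        (fun z => ENNReal.ofReal (g (y + z))) (fun _ => (0 : ℝ≥0∞))) :=
      ContinuousOn.measurable_piecewise (ENNReal.continuous_ofReal.comp_continuousOn hcg0)
        continuousOn_const measurableSet_ball
    have h3 : f = (ball (0 : ℂ) r).piecewise
        (fun z => ENNReal.ofReal (g (y + z))) (fun _ => (0 : ℝ≥0∞)) := by
      ext z
      simp only [hf, indicator, piecewise]
    rw [h3]
    exact h2
  have hG : Measurable (fun p : ℝ × ℝ => ENNReal.ofReal p.1 * f (p.1 • un p.2)) := by
    have h2 : Continuous (fun p : ℝ × ℝ => p.1 • un p.2) := by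
      have := un_cont
      fun_prop
    exact (ENNReal.measurable_ofReal.comp measurable_fst).mul (hfm.comp h2.measurable)
  have h2 : ∫⁻ z, f z = ∫⁻ s in Ioi (0 : ℝ), ∫⁻ θ in Ioo (-Real.pi) Real.pi,
      ENNReal.ofReal s * f (s • un θ) := by
    rw [← Complex.lintegral_comp_polarCoord_symm]
    have h3 : ∀ p : ℝ × ℝ, ENNReal.ofReal p.1 • f (Complex.polarCoord.symm p) =
        ENNReal.ofReal p.1 * f (p.1 • un p.2) := by
      intro p
      rw [Complex.polarCoord_symm_apply, smul_eq_mul, un_eq]
      simp [mul_add]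
    simp_rw [h3]
    rw [polarCoord_target, Measure.volume_eq_prod, ← Measure.prod_restrict,
      lintegral_prod _ hG.aemeasurable]
  rw [h1, h2]
  have hp0 : 0 ≤ g y := hnn y (mem_ball_self hr)
  have h3 : ∀ s ∈ Ioi (0 : ℝ), ∫⁻ θ in Ioo (-Real.pi) Real.pi,
      ENNReal.ofReal s * f (s • un θ) ≤
        (Ioo 0 r).indicator (fun s => ENNReal.ofReal (s * (2 * Real.pi * g y))) s := by
    intro s hs
    have hs0 : 0 < s := hs
    by_cases hsr : s < r
    · rw [indicator_of_mem (show s ∈ Ioo 0 r from ⟨hs0, hsr⟩)]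
      have hs' : s ∈ Ioo (-r) r := ⟨by linarith, hsr⟩
      have h4 : ∀ θ : ℝ, f (s • un θ) = ENNReal.ofReal (g (y + s • un θ)) := by
        intro θ
        simp only [hf]
        rw [indicator_of_mem]
        rw [mem_ball_zero_iff, norm_smul, norm_un, mul_one, Real.norm_eq_abs, abs_of_pos hs0]
        exact hsr
      simp_rw [h4]
      have h5 : Continuous (fun θ : ℝ => y + s • un θ) := by
        have := un_cont
        fun_prop
      have h6 : Continuous (fun θ : ℝ => g (y + s • un θ)) :=
        continuousOn_univ.1 (hcg.comp h5.continuousOn (fun θ _ => mem_bl hs' θ))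
      have h8 : Measurable (fun θ : ℝ => ENNReal.ofReal (g (y + s • un θ))) :=
        ENNReal.measurable_ofReal.comp h6.measurable
      rw [lintegral_const_mul _ h8]
      have h7 : ∫⁻ θ in Ioo (-Real.pi) Real.pi, ENNReal.ofReal (g (y + s • un θ)) =
          ENNReal.ofReal (∫ θ in (-Real.pi)..Real.pi, g (y + s • un θ)) :=
        lint_eq (by linarith [Real.pi_pos]) h6 (fun θ _ => hnn _ (mem_bl hs' θ))
      rw [h7, ENNReal.ofReal_mul hs0.le]
      exact mul_le_mul_right (ENNReal.ofReal_le_ofReal (circ_le hr hg hl ⟨hs0.le, hsr⟩)) _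
    · have h4 : ∀ θ : ℝ, f (s • un θ) = 0 := by
        intro θ
        simp only [hf]
        rw [indicator_of_notMem]
        rw [mem_ball_zero_iff, norm_smul, norm_un, mul_one, Real.norm_eq_abs, abs_of_pos hs0]
        exact hsr
      simp_rw [h4]
      rw [mul_zero, lintegral_zero]
      exact zero_le
  refine (setLIntegral_mono' measurableSet_Ioi h3).trans ?_
  rw [lintegral_indicator measurableSet_Ioo, Measure.restrict_restrict measurableSet_Ioo]
  have h4 : Ioo 0 r ∩ Ioi (0 : ℝ) = Ioo 0 r := by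
    ext s; simp only [mem_inter_iff, mem_Ioo, mem_Ioi]; tauto
  rw [h4]
  have h5 : ∫⁻ s in Ioo 0 r, ENNReal.ofReal (s * (2 * Real.pi * g y)) =
      ENNReal.ofReal (∫ s in (0 : ℝ)..r, s * (2 * Real.pi * g y)) :=
    lint_eq hr.le (by fun_prop) (fun t ht => mul_nonneg ht.1.le (by have := Real.pi_pos; positivity))
  rw [h5]
  apply ENNReal.ofReal_le_ofReal
  rw [intervalIntegral.integral_mul_const, integral_id]
  apply le_of_eq
  ring

end Pool.Agent.Helper26.SV
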