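import Pool.Agent.Helper35.SV.StmS

/-!
# The sharp example: the law of a plane wave in the unit square
-/

set_option autoImplicit false
open MeasureTheory Filter Topology Complex Metric Set
open scoped ContDiff ENNReal

namespace Pool.Agent.Helper26.SV

open Pool.Agent.Helper35.SV

noncomputable section

/-- the law of `r sin θ`, `θ` uniform in `(-π/2, π/2)` -/
def law (r : ℝ) : Measure ℝ :=
  Measure.map (fun θ : ℝ => r * Real.sin θ)
    (ENNReal.ofReal (1 / Real.pi) • (volume.restrict (Ioc (-(Real.pi / 2)) (Real.pi / 2))))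

theorem meas_sin (r : ℝ) : Measurable (fun θ : ℝ => r * Real.sin θ) := by fun_prop

theorem law_prob (r : ℝ) : IsProbabilityMeasure (law r) := by
  unfold law
  have h : IsProbabilityMeasure
      (ENNReal.ofReal (1 / Real.pi) • (volume.restrict (Ioc (-(Real.pi / 2)) (Real.pi / 2)) : Measure ℝ)) := by
    constructor
    rw [Measure.smul_apply, Measure.restrict_apply_univ, Real.volume_Ioc, smul_eq_mul,
      ← ENNReal.ofReal_mul (by positivity)]
    have h1 : 1 / Real.pi * (Real.pi / 2 - -(Real.pi / 2)) = 1 := by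
      field_simp; ring
    rw [h1, ENNReal.ofReal_one]
  exact Measure.isProbabilityMeasure_map (meas_sin r).aemeasurable

theorem law_int (r : ℝ) (g : ℝ → ℝ) (hg : Continuous g) :
    ∫ x, g x ∂(law r) = 1 / Real.pi * ∫ θ in (-(Real.pi / 2))..(Real.pi / 2), g (r * Real.sin θ) := by
  unfold law
  rw [integral_map (meas_sin r).aemeasurable hg.aestronglyMeasurable, integral_smul_measure,
    ENNReal.toReal_ofReal (by positivity), smul_eq_mul,
    intervalIntegral.integral_of_le (by linarith [Real.pi_pos])]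

/-- averages over a period -/
theorem period_avg (r : ℝ) (g : ℝ → ℝ) (hg : Continuous g) (n : ℕ) :
    ∫ x in (0 : ℝ)..1, g (r * Real.cos (2 * Real.pi * (n + 1) * x)) =
      1 / Real.pi * ∫ θ in (-(Real.pi / 2))..(Real.pi / 2), g (r * Real.sin θ) := by
  have hpi := Real.pi_pos
  set G : ℝ → ℝ := fun u => g (r * Real.cos u) with hG
  set H : ℝ → ℝ := fun u => g (r * Real.sin u) with hH
  have hGc : Continuous G := by fun_prop
  have hHc : Continuous H := by fun_prop
  have hGp : Function.Periodic G (2 * Real.pi) := fun u => by simp [hG]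
  have hHp : Function.Periodic H (2 * Real.pi) := fun u => by simp [hH]
  have hc : (2 * Real.pi * ((n : ℝ) + 1)) ≠ 0 := by positivity
  have h1 : ∫ x in (0 : ℝ)..1, g (r * Real.cos (2 * Real.pi * (n + 1) * x)) =
      (2 * Real.pi * ((n : ℝ) + 1))⁻¹ * ∫ u in (0 : ℝ)..(2 * Real.pi * (n + 1)), G u := by
    have h2 := intervalIntegral.integral_comp_mul_left (a := 0) (b := 1) G hc
    rw [mul_zero, mul_one, smul_eq_mul] at h2
    exact h2
  have h2 : ∫ u in (0 : ℝ)..(2 * Real.pi * (n + 1)), G u = ((n : ℝ) + 1) * ∫ u in (0 : ℝ)..(2 * Real.pi), G u := by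
    have h3 := hGp.intervalIntegral_add_zsmul_eq (n + 1 : ℤ) 0 (hGc.intervalIntegrable)
    rw [zero_add, zero_add] at h3
    have h4 : ((n + 1 : ℤ) • (2 * Real.pi) : ℝ) = 2 * Real.pi * (n + 1) := by
      rw [zsmul_eq_mul]; push_cast; ring
    rw [h4, zsmul_eq_mul] at h3
    rw [h3]
    push_cast
    ring
  have h3 : ∫ u in (0 : ℝ)..(2 * Real.pi), G u = ∫ u in (Real.pi / 2)..(Real.pi / 2 + 2 * Real.pi), H u := by
    have h4 : ∀ u, G u = H (u + Real.pi / 2) := by
      intro u
      simp only [hG, hH, Real.sin_add_pi_div_two]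
    simp_rw [h4]
    rw [intervalIntegral.integral_comp_add_right]
    congr 1 <;> ring
  have h4 : ∫ u in (Real.pi / 2)..(Real.pi / 2 + 2 * Real.pi), H u =
      ∫ u in (-(Real.pi / 2))..(-(Real.pi / 2) + 2 * Real.pi), H u :=
    hHp.intervalIntegral_add_eq _ _
  have h5 : ∫ u in (-(Real.pi / 2))..(-(Real.pi / 2) + 2 * Real.pi), H u =
      (∫ u in (-(Real.pi / 2))..(Real.pi / 2), H u) +
        ∫ u in (Real.pi / 2)..(-(Real.pi / 2) + 2 * Real.pi), H u :=
    (intervalIntegral.integral_add_adjacent_intervals (hHc.intervalIntegrable _ _)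
      (hHc.intervalIntegrable _ _)).symm
  have h6 : ∫ u in (Real.pi / 2)..(-(Real.pi / 2) + 2 * Real.pi), H u =
      ∫ u in (-(Real.pi / 2))..(Real.pi / 2), H u := by
    have h7 : ∀ u, H u = H (Real.pi - u) := by
      intro u
      simp only [hH, Real.sin_pi_sub]
    calc ∫ u in (Real.pi / 2)..(-(Real.pi / 2) + 2 * Real.pi), H u
        = ∫ u in (Real.pi / 2)..(-(Real.pi / 2) + 2 * Real.pi), H (Real.pi - u) := by
          simp_rw [← h7]
      _ = ∫ u in (Real.pi - (-(Real.pi / 2) + 2 * Real.pi))..(Real.pi - Real.pi / 2), H u :=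
          intervalIntegral.integral_comp_sub_left _ _
      _ = _ := by congr 1 <;> ring
  rw [h1, h2, h3, h4, h5, h6]
  field_simp
  ring

theorem sq_int (f : ℝ → ℝ) :
    ∫ z in usq, f z.re = ∫ x in (0 : ℝ)..1, f x := by
  have h1 : usq = Complex.measurableEquivRealProd ⁻¹' (Ioo (0 : ℝ) 1 ×ˢ Ioo (0 : ℝ) 1) := by
    ext z
    simp [usq, Complex.measurableEquivRealProd]
  rw [h1]
  have h2 := Complex.volume_preserving_equiv_real_prod.setIntegral_preimage_emb
    Complex.measurableEquivRealProd.measurableEmbedding (fun p : ℝ × ℝ => f p.1)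
    (Ioo (0 : ℝ) 1 ×ˢ Ioo (0 : ℝ) 1)
  have h3 : (fun z : ℂ => f z.re) = fun z => (fun p : ℝ × ℝ => f p.1) (Complex.measurableEquivRealProd z) := by
    ext z; rfl
  rw [h3, h2, Measure.volume_eq_prod]
  have h4 := setIntegral_prod_mul (μ := (volume : Measure ℝ)) (ν := (volume : Measure ℝ)) f (fun _ => (1 : ℝ))
    (Ioo (0 : ℝ) 1) (Ioo (0 : ℝ) 1)
  simp only [mul_one] at h4
  rw [h4]
  simp only [setIntegral_const, smul_eq_mul, mul_one]
  rw [intervalIntegral.integral_of_le zero_le_one, integral_Ioc_eq_integral_Ioo]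
  simp

theorem sq_vol : volume usq = 1 := by
  have h1 : usq = Complex.measurableEquivRealProd ⁻¹' (Ioo (0 : ℝ) 1 ×ˢ Ioo (0 : ℝ) 1) := by
    ext z
    simp [usq, Complex.measurableEquivRealProd]
  rw [h1, Complex.volume_preserving_equiv_real_prod.measure_preimage
    (measurableSet_Ioo.prod measurableSet_Ioo).nullMeasurableSet, Measure.volume_eq_prod,
    Measure.prod_prod]
  simp

theorem law_Icc {r s : ℝ} (hs : 0 < s) (hsr : s < r) :
    law r (Icc (-s) s) = ENNReal.ofReal (1 / Real.pi * (2 * Real.arcsin (s / r))) := by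
  have hr : 0 < r := hs.trans hsr
  have hpi := Real.pi_pos
  unfold law
  rw [Measure.map_apply (meas_sin r) measurableSet_Icc, Measure.smul_apply, smul_eq_mul,
    Measure.restrict_apply ((meas_sin r) measurableSet_Icc)]
  have hc1 : s / r < 1 := by rw [div_lt_one hr]; exact hsr
  have hc0 : 0 < s / r := by positivity
  have h1 : (fun θ : ℝ => r * Real.sin θ) ⁻¹' Icc (-s) s ∩ Ioc (-(Real.pi / 2)) (Real.pi / 2) =
      Icc (-Real.arcsin (s / r)) (Real.arcsin (s / r)) := by
    have ha : Real.arcsin (s / r) < Real.pi / 2 := by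
      rw [← Real.arcsin_one]
      exact Real.strictMonoOn_arcsin ⟨by linarith, hc1.le⟩ ⟨by norm_num, le_rfl⟩ hc1
    ext θ
    simp only [mem_inter_iff, mem_preimage, mem_Icc, mem_Ioc]
    constructor
    · rintro ⟨⟨h2, h3⟩, h4, h5⟩
      constructor
      · rw [← Real.arcsin_neg, Real.arcsin_le_iff_le_sin ⟨by linarith, by linarith⟩ ⟨h4.le, h5⟩,
          neg_le_iff_add_nonneg, ← sub_nonneg]
        have h6 : Real.sin θ + s / r - 0 = (r * Real.sin θ + s) / r := by field_simp; ring
        rw [h6]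
        exact div_nonneg (by linarith) hr.le
      · rw [Real.le_arcsin_iff_sin_le ⟨h4.le, h5⟩ ⟨by linarith, by linarith⟩, le_div_iff₀ hr]
        linarith
    · rintro ⟨h2, h3⟩
      have h4 : -(Real.pi / 2) < θ := by linarith
      have h5 : θ ≤ Real.pi / 2 := by linarith
      refine ⟨⟨?_, ?_⟩, h4, h5⟩
      · rw [← Real.arcsin_neg, Real.arcsin_le_iff_le_sin ⟨by linarith, by linarith⟩ ⟨h4.le, h5⟩] at h2
        have h6 : r * (-(s / r)) = -s := by field_simp
        rw [← h6]
        exact mul_le_mul_of_nonneg_left h2 hr.le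
      · rw [Real.le_arcsin_iff_sin_le ⟨h4.le, h5⟩ ⟨by linarith, by linarith⟩, le_div_iff₀ hr] at h3
        linarith
  rw [h1, Real.volume_Icc, ← ENNReal.ofReal_mul (by positivity)]
  congr 1
  ring

theorem law_lim {r : ℝ} (hr : 0 < r) :
    Tendsto (fun s : ℝ => law r (Set.Icc (-s) s) / ENNReal.ofReal (2 * s)) (𝓝[>] 0)
      (𝓝 (ENNReal.ofReal (1 / (Real.pi * r)))) := by
  have hpi := Real.pi_pos
  have h1 : Tendsto (fun s : ℝ => Real.arcsin (s / r) / s) (𝓝[>] 0) (𝓝 (1 / r)) := by
    have h2 : HasDerivAt (fun s : ℝ => Real.arcsin (s / r)) (1 / r) 0 := by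
      have h3 : HasDerivAt Real.arcsin (1 / √(1 - (0 / r) ^ 2)) (0 / r) :=
        Real.hasDerivAt_arcsin (by rw [zero_div]; norm_num) (by rw [zero_div]; norm_num)
      have h4 : HasDerivAt (fun s : ℝ => s / r) (1 / r) 0 := (hasDerivAt_id' (0 : ℝ)).div_const r
      have h5 := h3.comp (0 : ℝ) h4
      have h6 : 1 / √(1 - (0 / r) ^ 2) * (1 / r) = 1 / r := by simp
      rw [h6] at h5
      exact h5
    have h3 := hasDerivAt_iff_tendsto_slope.1 h2
    have h4 := h3.mono_left (nhdsWithin_mono 0 (show Ioi (0 : ℝ) ⊆ {0}ᶜ from fun x hx =>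
      (ne_of_gt hx : x ≠ 0)))
    refine h4.congr fun s => ?_
    rw [slope_def_field]
    simp
  have h2 : Tendsto (fun s : ℝ => ENNReal.ofReal (1 / Real.pi * (Real.arcsin (s / r) / s))) (𝓝[>] 0)
      (𝓝 (ENNReal.ofReal (1 / (Real.pi * r)))) := by
    have h3 : 1 / (Real.pi * r) = 1 / Real.pi * (1 / r) := by field_simp
    rw [h3]
    exact (ENNReal.continuous_ofReal.tendsto _).comp (h1.const_mul _)
  refine h2.congr' ?_
  filter_upwards [Ioo_mem_nhdsGT hr] with s hs
  rw [law_Icc hs.1 hs.2, ← ENNReal.ofReal_div_of_pos (by linarith [hs.1])]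
  congr 1
  have := hs.1.ne'
  field_simp

theorem law_abs {r : ℝ} (hr : 0 < r) :
    ∫⁻ x, ENNReal.ofReal |x| ∂(law r) = ENNReal.ofReal (2 / Real.pi * r) := by
  have hpi := Real.pi_pos
  unfold law
  rw [lintegral_map (by fun_prop) (meas_sin r), lintegral_smul_measure, smul_eq_mul]
  have hc : Continuous (fun θ : ℝ => |r * Real.sin θ|) := by fun_prop
  have h1 : ∫⁻ θ in Ioc (-(Real.pi / 2)) (Real.pi / 2), ENNReal.ofReal |r * Real.sin θ| =
      ENNReal.ofReal (∫ θ in (-(Real.pi / 2))..(Real.pi / 2), |r * Real.sin θ|) := by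
    rw [intervalIntegral.integral_of_le (by linarith), ofReal_integral_eq_lintegral_ofReal]
    · exact hc.integrableOn_Ioc
    · exact Eventually.of_forall fun θ => abs_nonneg _
  have h2 : ∫ θ in (-(Real.pi / 2))..(Real.pi / 2), |r * Real.sin θ| = 2 * r := by
    rw [← intervalIntegral.integral_add_adjacent_intervals (b := 0) (hc.intervalIntegrable _ _)
      (hc.intervalIntegrable _ _)]
    have h3 : ∫ θ in (-(Real.pi / 2))..0, |r * Real.sin θ| =
        ∫ θ in (-(Real.pi / 2))..0, -(r * Real.sin θ) := by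
      apply intervalIntegral.integral_congr
      intro θ hθ
      rw [uIcc_of_le (by linarith)] at hθ
      have : Real.sin θ ≤ 0 := Real.sin_nonpos_of_nonpos_of_neg_pi_le hθ.2 (by linarith [hθ.1])
      exact abs_of_nonpos (mul_nonpos_of_nonneg_of_nonpos hr.le this)
    have h4 : ∫ θ in (0 : ℝ)..(Real.pi / 2), |r * Real.sin θ| =
        ∫ θ in (0 : ℝ)..(Real.pi / 2), r * Real.sin θ := by
      apply intervalIntegral.integral_congr
      intro θ hθ
      rw [uIcc_of_le (by linarith)] at hθ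
      have : 0 ≤ Real.sin θ := Real.sin_nonneg_of_nonneg_of_le_pi hθ.1 (by linarith [hθ.2])
      exact abs_of_nonneg (mul_nonneg hr.le this)
    rw [h3, h4, intervalIntegral.integral_neg, intervalIntegral.integral_const_mul,
      intervalIntegral.integral_const_mul, integral_sin, integral_sin]
    simp
    ring
  rw [h1, h2, ← ENNReal.ofReal_mul (by positivity)]
  congr 1
  ring

/-- (SHARP) proved -/
theorem sharp : Pool.Agent.Helper35.SV.S_SHARP := by
  intro B hB
  have hpi := Real.pi_pos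
  have hr : 0 < √(2 * B) := Real.sqrt_pos.2 (by positivity)
  have hwave : ∀ (n : ℕ) (g : ℝ → ℝ), Continuous g →
      ∫ z in usq, g (√(2 * B) * Real.cos (2 * Real.pi * (n + 1) * z.re)) = ∫ x, g x ∂(law √(2 * B)) := by
    intro n g hg
    rw [sq_int (fun x => g (√(2 * B) * Real.cos (2 * Real.pi * (n + 1) * x))), period_avg _ g hg, law_int _ g hg]
  refine ⟨law √(2 * B), law_prob _, hwave, ?_, sq_vol, law_lim hr, law_abs hr⟩
  intro n
  rw [hwave n (fun x => x ^ 2) (by fun_prop), law_int _ _ (by fun_prop)]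
  simp_rw [mul_pow]
  rw [intervalIntegral.integral_const_mul, integral_sin_sq, Real.sq_sqrt (by positivity)]
  simp
  field_simp

end

end Pool.Agent.Helper26.SV
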